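import Pool.Agent.H85.NF.Q

/-!
# GSN: a matrix near to a diagonal matrix
-/

set_option autoImplicit false

namespace Pool.NF

open Matrix Pool.T1 Pool.AVS

/-- All entries of `C` are at most `ε`, and divisible by `a` at `2`. -/
def NrQ {ι : Type} (ε a : ℚ) (C : Matrix ι ι ℚ) : Prop :=
  ∀ i j, |C i j| ≤ ε ∧ C i j / a ∈ Zp 2

/-- clearing one row -/
theorem gsn_clear {ι : Type} [Fintype ι] [DecidableEq ι] (A : Matrix ι ι ℚ) (hA : Aᵀ = A) (k : ι)
    (hk : A k k ≠ 0) :
    ∃ t : Matrix ι ι ℚ, t.det ≠ 0 ∧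
      (∀ i j, i ≠ k → j ≠ k → (tᵀ * A * t) i j = A i j - A k i * A k j / A k k) ∧
      (tᵀ * A * t) k k = A k k ∧ (∀ j, j ≠ k → (tᵀ * A * t) k j = 0) ∧
      (∀ j, j ≠ k → (tᵀ * A * t) j k = 0) := by
  let r : ι → ℚ := fun j => if j = k then 0 else A k j / A k k
  let N : Matrix ι ι ℚ := Matrix.of fun i j => if i = k then r j else 0
  have hrk : r k = 0 := by simp [r]
  have hAN : ∀ (X : Matrix ι ι ℚ) (i j), (X * N) i j = X i k * r j := by
    intro X i j
    rw [Matrix.mul_apply, Finset.sum_eq_single k]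
    · simp [N]
    · intro l _ hl
      simp [N, hl]
    · intro h
      exact absurd (Finset.mem_univ k) h
  have hNX : ∀ (X : Matrix ι ι ℚ) (i j), (Nᵀ * X) i j = r i * X k j := by
    intro X i j
    rw [Matrix.mul_apply, Finset.sum_eq_single k]
    · simp [N]
    · intro l _ hl
      simp [N, hl]
    · intro h
      exact absurd (Finset.mem_univ k) h
  have hNN : N * N = 0 := by
    ext i j
    rw [hAN]
    by_cases hi : i = k
    · simp [N, hi, hrk]
    · simp [N, hi]
  have hdet : (1 - N).det ≠ 0 := by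
    have h1 : (1 - N) * (1 + N) = 1 := by
      rw [sub_mul, mul_add, mul_add, hNN]
      simp
    intro h0
    have h2 := congrArg Matrix.det h1
    rw [Matrix.det_mul, h0, zero_mul, Matrix.det_one] at h2
    exact zero_ne_one h2
  have hsym : ∀ i j, A i j = A j i := fun i j => by
    conv_lhs => rw [← hA]
    rfl
  have hent : ∀ i j, ((1 - N)ᵀ * A * (1 - N) : Matrix ι ι ℚ) i j =
      A i j - A i k * r j - r i * (A k j - A k k * r j) := by
    intro i j
    have e : (1 - N)ᵀ * A * (1 - N) = A - A * N - Nᵀ * (A - A * N) := by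
      rw [Matrix.transpose_sub, Matrix.transpose_one]
      noncomm_ring
    rw [e, Matrix.sub_apply, Matrix.sub_apply, hNX, hAN, Matrix.sub_apply, hAN]
  refine ⟨1 - N, hdet, ?_, ?_, ?_, ?_⟩
  · intro i j hi hj
    rw [hent]
    simp only [r, if_neg hi, if_neg hj]
    rw [hsym i k]
    field_simp
    ring
  · rw [hent, hrk]
    ring
  · intro j hj
    rw [hent, hrk]
    simp only [r, if_neg hj]
    field_simp
    ring
  · intro j hj
    rw [hent, hrk]
    simp only [r, if_neg hj]
    rw [hsym j k]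
    field_simp
    ring

section O

variable {O : ValuationSubring ℚ}

theorem gsn_int (z : ℤ) : (z : ℚ) ∈ O := by
  exact intCast_mem O z

/-- `1 + 8 z` is a unit -/
theorem gsn_unit (h2 : (2 : ℚ)⁻¹ ∉ O) (z : ℚ) (hz : z ∈ O) :
    1 + 8 * z ≠ 0 ∧ (1 + 8 * z)⁻¹ ∈ O := by
  have h2m : (2 : ℚ) ∈ O := by simp
  have hne : 1 + 8 * z ≠ 0 := by
    intro h
    apply h2
    have : (2 : ℚ)⁻¹ = -(4 * z) := by linarith
    rw [this]
    exact neg_mem (mul_mem (by simp) hz)
  refine ⟨hne, ?_⟩
  by_contra hno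
  -- then `1 + 8 z` is in the maximal ideal, so is `8 z`, hence 1
  have hw : 1 + 8 * z ∈ O := add_mem (one_mem _) (mul_mem (by simp) hz)
  have hv1 : O.valuation (1 + 8 * z) < 1 := by
    rcases lt_or_ge (O.valuation (1 + 8 * z)) 1 with h | h
    · exact h
    · exfalso
      apply hno
      rw [← ValuationSubring.valuation_le_one_iff, map_inv₀]
      exact inv_le_one_of_one_le₀ h
  have hv2 : O.valuation 2 < 1 := by
    rcases lt_or_ge (O.valuation 2) 1 with h | h
    · exact h
    · exfalso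
      apply h2
      rw [← ValuationSubring.valuation_le_one_iff, map_inv₀]
      exact inv_le_one_of_one_le₀ h
  have hv3 : O.valuation (8 * z) < 1 := by
    have e : (8 : ℚ) * z = 2 * (4 * z) := by ring
    rw [e, map_mul]
    have h4 : O.valuation (4 * z) ≤ 1 := by
      rw [ValuationSubring.valuation_le_one_iff]
      exact mul_mem (by simp) hz
    exact mul_lt_one_of_lt_of_le hv2 h4
  have hv4 : O.valuation ((1 + 8 * z) - 8 * z) < 1 :=
    lt_of_le_of_lt (Valuation.map_sub _ _ _) (max_lt hv1 hv3)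
  rw [add_sub_cancel_right, map_one] at hv4
  exact lt_irrefl _ hv4

end O

/-- the parameters of one step -/
theorem gsn_step {O : ValuationSubring ℚ} (hO : (O : Set ℚ) = Zp 2) (h2 : (2 : ℚ)⁻¹ ∉ O)
    {ι : Type} [Fintype ι] [DecidableEq ι] (b : ι → ℚ) (hb : ∀ i, b i ≠ 0) (k : ι) (ε a : ℚ) (hε : 0 < ε)
    (ha : a ≠ 0) :
    ∃ ε1 a1 : ℚ, 0 < ε1 ∧ a1 ≠ 0 ∧ ∀ A : Matrix ι ι ℚ, Aᵀ = A →
      NrQ ε1 a1 (A - Matrix.diagonal b) → ∃ t : Matrix ι ι ℚ, t.det ≠ 0 ∧
        NrQ ε a (tᵀ * A * t - Matrix.diagonal b) ∧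
        (∀ j, j ≠ k → (tᵀ * A * t) k j = 0) ∧
        ∀ i, i ≠ k → (∀ j, j ≠ i → A i j = 0) → ∀ j, j ≠ i → (tᵀ * A * t) i j = 0 := by
  classical
  have hmem : ∀ x : ℚ, x ∈ Zp 2 ↔ x ∈ O := fun x => by rw [← hO]; rfl
  have hbk := hb k
  have hbk' : 0 < |b k| := abs_pos.2 hbk
  have hbn : (b k).num ≠ 0 := Rat.num_ne_zero.2 hbk
  have han : a.num ≠ 0 := Rat.num_ne_zero.2 ha
  set ε1 : ℚ := min (ε / 2) (|b k| / 4) with hε1
  have hε1p : 0 < ε1 := lt_min (by linarith) (by linarith)
  set a1 : ℚ := 8 * ((a.num * (b k).num : ℤ) : ℚ) with ha1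
  have ha1n : a1 ≠ 0 := by
    rw [ha1]
    have : ((a.num * (b k).num : ℤ) : ℚ) ≠ 0 := by exact_mod_cast mul_ne_zero han hbn
    exact mul_ne_zero (by norm_num) this
  -- integrality of the quotients
  have hqa : a.num = a * a.den := by
    have := Rat.num_div_den a
    have hd : (a.den : ℚ) ≠ 0 := by exact_mod_cast a.den_nz
    field_simp at this
    linarith
  have hqb : (b k).num = b k * (b k).den := by
    have := Rat.num_div_den (b k)
    have hd : ((b k).den : ℚ) ≠ 0 := by exact_mod_cast (b k).den_nz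
    field_simp at this
    linarith
  have e1 : a1 = a * ((8 * (a.den * (b k).num) : ℤ) : ℚ) := by
    rw [ha1]; push_cast; rw [hqa]; ring
  have e2 : a1 = 8 * b k * (((a.num * (b k).den) : ℤ) : ℚ) := by
    rw [ha1]; push_cast; rw [hqb]; ring
  have e3 : a1 * a1 = a * b k * (((8 * (a.den * (b k).num)) * (8 * (a.num * (b k).den)) : ℤ) : ℚ)
      := by
    have e4 : a1 * a1 = (a * ((8 * (a.den * (b k).num) : ℤ) : ℚ)) *
        (8 * b k * (((a.num * (b k).den) : ℤ) : ℚ)) := by rw [← e1, ← e2]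
    rw [e4]
    push_cast; ring
  refine ⟨ε1, a1, hε1p, ha1n, ?_⟩
  intro A hA hnear
  have hε1a : ε1 ≤ ε / 2 := min_le_left _ _
  have hε1b : ε1 ≤ |b k| / 4 := min_le_right _ _
  -- the entry at k
  have hkk := hnear k k
  rw [Matrix.sub_apply, Matrix.diagonal_apply_eq] at hkk
  set z : ℚ := (A k k - b k) / (8 * b k) with hz
  have hzO : z ∈ O := by
    have : z = ((A k k - b k) / a1) * (((a.num * (b k).den) : ℤ) : ℚ) := by
      rw [hz, div_mul_eq_mul_div, div_eq_div_iff (mul_ne_zero (by norm_num) hbk) ha1n, e2]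
      ring
    rw [this]
    exact mul_mem ((hmem _).1 hkk.2) (gsn_int _)
  obtain ⟨hun, huO⟩ := gsn_unit h2 z hzO
  have hAkk : A k k = b k * (1 + 8 * z) := by
    rw [hz]; field_simp; ring
  have hAk0 : A k k ≠ 0 := by rw [hAkk]; exact mul_ne_zero hbk hun
  have habs : |b k| / 2 ≤ |A k k| := by
    have := abs_sub_abs_le_abs_sub (b k) (A k k)
    rw [abs_sub_comm] at this
    linarith [hkk.1]
  obtain ⟨t, ht, h1, h3, h4, h5⟩ := gsn_clear A hA k hAk0
  refine ⟨t, ht, ?_, h4, ?_⟩
  · intro i j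
    rw [Matrix.sub_apply]
    by_cases hi : i = k
    · subst hi
      by_cases hj : j = i
      · subst hj
        rw [h3, Matrix.diagonal_apply_eq]
        refine ⟨by linarith [hkk.1], ?_⟩
        rw [hmem]
        have : (A j j - b j) / a = ((A j j - b j) / a1) * ((8 * (a.den * (b j).num) : ℤ) : ℚ) := by
          rw [div_mul_eq_mul_div, div_eq_div_iff ha ha1n, e1]; ring
        rw [this]
        exact mul_mem ((hmem _).1 hkk.2) (gsn_int _)
      · rw [h4 j hj, Matrix.diagonal_apply_ne _ (Ne.symm hj)]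
        refine ⟨by simpa using hε.le, ?_⟩
        rw [hmem]
        simp
    · by_cases hj : j = k
      · subst hj
        rw [h5 i hi, Matrix.diagonal_apply_ne _ hi]
        refine ⟨by simpa using hε.le, ?_⟩
        rw [hmem]
        simp
      · rw [h1 i j hi hj]
        have hij := hnear i j
        rw [Matrix.sub_apply] at hij
        have hki := hnear k i
        have hkj := hnear k j
        rw [Matrix.sub_apply, Matrix.diagonal_apply_ne _ (Ne.symm hi), sub_zero] at hki
        rw [Matrix.sub_apply, Matrix.diagonal_apply_ne _ (Ne.symm hj), sub_zero] at hkj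
        constructor
        · have hb1 : |A k i * A k j / A k k| ≤ ε1 / 2 := by
            rw [abs_div, abs_mul, div_le_iff₀ (abs_pos.2 hAk0)]
            calc |A k i| * |A k j| ≤ ε1 * ε1 :=
                  mul_le_mul hki.1 hkj.1 (abs_nonneg _) hε1p.le
              _ ≤ ε1 * (|b k| / 4) := mul_le_mul_of_nonneg_left hε1b hε1p.le
              _ = ε1 / 2 * (|b k| / 2) := by ring
              _ ≤ ε1 / 2 * |A k k| := mul_le_mul_of_nonneg_left habs (by linarith)
          have e5 : A i j - A k i * A k j / A k k - Matrix.diagonal b i j =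
              (A i j - Matrix.diagonal b i j) - A k i * A k j / A k k := by ring
          rw [e5]
          calc |(A i j - Matrix.diagonal b i j) - A k i * A k j / A k k|
              ≤ |A i j - Matrix.diagonal b i j| + |A k i * A k j / A k k| := abs_sub _ _
            _ ≤ ε := by linarith [hij.1]
        · rw [hmem]
          have e6 : (A i j - A k i * A k j / A k k - Matrix.diagonal b i j) / a =
              ((A i j - Matrix.diagonal b i j) / a1) * ((8 * (a.den * (b k).num) : ℤ) : ℚ) -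
              (A k i / a1) * (A k j / a1) *
                (((8 * (a.den * (b k).num)) * (8 * (a.num * (b k).den)) : ℤ) : ℚ) *
                (1 + 8 * z)⁻¹ := by
            have h6 : ((A i j - Matrix.diagonal b i j) / a1) *
                ((8 * (a.den * (b k).num) : ℤ) : ℚ) = (A i j - Matrix.diagonal b i j) / a := by
              rw [div_mul_eq_mul_div, div_eq_div_iff ha1n ha, e1]; ring
            have h7 : (A k i / a1) * (A k j / a1) *
                (((8 * (a.den * (b k).num)) * (8 * (a.num * (b k).den)) : ℤ) : ℚ) *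
                (1 + 8 * z)⁻¹ = A k i * A k j / A k k / a := by
              rw [hAkk]
              have hi1 : (((8 * (a.den * (b k).num)) * (8 * (a.num * (b k).den)) : ℤ) : ℚ) =
                  a1 * a1 / (a * b k) := by
                rw [e3]; field_simp
              rw [hi1]
              field_simp
            rw [h6, h7]
            ring
          rw [e6]
          refine sub_mem (mul_mem ((hmem _).1 hij.2) (gsn_int _)) ?_
          exact mul_mem (mul_mem (mul_mem ((hmem _).1 hki.2) ((hmem _).1 hkj.2)) (gsn_int _)) huO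
  · intro i hi hrow j hj
    by_cases hjk : j = k
    · subst hjk
      exact h5 i hi
    · rw [h1 i j hi hjk, hrow j hj]
      have hs : A k i = 0 := by
        have : A k i = A i k := by
          conv_lhs => rw [← hA]
          rfl
        rw [this]
        exact hrow k (Ne.symm hi)
      rw [hs]
      simp

theorem gsn_ind {O : ValuationSubring ℚ} (hO : (O : Set ℚ) = Zp 2) (h2 : (2 : ℚ)⁻¹ ∉ O)
    {ι : Type} [Fintype ι] [DecidableEq ι] (b : ι → ℚ) (hb : ∀ i, b i ≠ 0) (s : Finset (ι)) :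
    ∀ ε a : ℚ, 0 < ε → a ≠ 0 →
    ∃ ε1 a1 : ℚ, 0 < ε1 ∧ a1 ≠ 0 ∧ ∀ A : Matrix ι ι ℚ, Aᵀ = A →
      NrQ ε1 a1 (A - Matrix.diagonal b) → ∃ u : Matrix ι ι ℚ, u.det ≠ 0 ∧
        NrQ ε a (uᵀ * A * u - Matrix.diagonal b) ∧
        ∀ i ∈ s, ∀ j, j ≠ i → (uᵀ * A * u) i j = 0 := by
  classical
  induction s using Finset.induction_on with
  | empty =>
    intro ε a hε ha
    refine ⟨ε, a, hε, ha, fun A _ hn => ⟨1, by simp, by simpa using hn, ?_⟩⟩
    intro i hi
    simp at hi
  | insert k s hks ih =>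
    intro ε a hε ha
    obtain ⟨ε', a', hε', ha', hstep⟩ := gsn_step hO h2 b hb k ε a hε ha
    obtain ⟨ε1, a1, hε1, ha1, hih⟩ := ih ε' a' hε' ha'
    refine ⟨ε1, a1, hε1, ha1, ?_⟩
    intro A hA hn
    obtain ⟨u, hu, hun, hur⟩ := hih A hA hn
    have hsym : (uᵀ * A * u)ᵀ = uᵀ * A * u := by
      rw [Matrix.transpose_mul, Matrix.transpose_mul, Matrix.transpose_transpose, hA,
        Matrix.mul_assoc]
    obtain ⟨t, ht, htn, htk, htr⟩ := hstep _ hsym hun
    have e : (u * t)ᵀ * A * (u * t) = tᵀ * (uᵀ * A * u) * t := by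
      rw [Matrix.transpose_mul]
      simp only [Matrix.mul_assoc]
    refine ⟨u * t, ?_, ?_, ?_⟩
    · rw [Matrix.det_mul]; exact mul_ne_zero hu ht
    · rw [e]; exact htn
    · intro i hi j hj
      rw [e]
      rcases Finset.mem_insert.1 hi with rfl | hi
      · exact htk j hj
      · have hik : i ≠ k := fun h => hks (h ▸ hi)
        exact htr i hik (hur i hi) j hj

theorem gsn_prod {ι : Type} [Fintype ι] (b : ι → ℚ) (i : ι) (hb : b i ≠ 0) :
    ∃ z : ℤ, (((∏ j, (b j).num : ℤ) : ℚ)) / b i = z := by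
  classical
  have hq : ((b i).num : ℚ) = b i * (b i).den := by
    have := Rat.num_div_den (b i)
    have hd : ((b i).den : ℚ) ≠ 0 := by exact_mod_cast (b i).den_nz
    field_simp at this
    linarith
  refine ⟨(b i).den * ∏ j ∈ Finset.univ.erase i, (b j).num, ?_⟩
  rw [← Finset.mul_prod_erase Finset.univ (fun j => (b j).num) (Finset.mem_univ i)]
  push_cast
  rw [hq]
  field_simp

theorem gsn (hZ : ZPBStmt) : GSNStmt := by
  classical
  intro ι _ _ b hb
  obtain ⟨O, hO, hU⟩ := (hZ 2 Nat.prime_two).1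
  have h2 : (2 : ℚ)⁻¹ ∉ O := by simpa using hU.2.2.1
  have hmem : ∀ x : ℚ, x ∈ Zp 2 ↔ x ∈ O := fun x => by rw [← hO]; rfl
  -- the target
  set ε0 : ℚ := (1 + ∑ i, |b i|⁻¹)⁻¹ with hε0
  have hsum : 0 ≤ ∑ i, |b i|⁻¹ := Finset.sum_nonneg fun i _ => inv_nonneg.2 (abs_nonneg _)
  have hε0p : 0 < ε0 := inv_pos.2 (by linarith)
  have hε0b : ∀ i, ε0 < |b i| := by
    intro i
    have h1 : |b i|⁻¹ ≤ ∑ i, |b i|⁻¹ :=
      Finset.single_le_sum (f := fun i => |b i|⁻¹) (fun i _ => inv_nonneg.2 (abs_nonneg _))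
        (Finset.mem_univ i)
    rw [hε0]
    have h3 : 0 < |b i| := abs_pos.2 (hb i)
    rw [inv_lt_comm₀ (by linarith) h3]
    linarith
  set a0 : ℚ := 8 * ((∏ j, (b j).num : ℤ) : ℚ) with ha0
  have ha0n : a0 ≠ 0 := by
    rw [ha0]
    refine mul_ne_zero (by norm_num) ?_
    exact_mod_cast Finset.prod_ne_zero_iff.2 fun i _ => Rat.num_ne_zero.2 (hb i)
  obtain ⟨ε1, a1, hε1, ha1, hind⟩ := gsn_ind hO h2 b hb Finset.univ ε0 a0 hε0p ha0n
  refine ⟨a1, (ε1 : ℝ), ha1, by exact_mod_cast hε1, ?_⟩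
  intro S hS hn1 hn2
  have hn : NrQ ε1 a1 (S - Matrix.diagonal b) := by
    intro i j
    rw [Matrix.sub_apply]
    refine ⟨?_, hn1 i j⟩
    have := (hn2 i j).le
    rw [← Rat.cast_abs] at this
    exact_mod_cast this
  obtain ⟨u, hu, hun, hur⟩ := hind _ hS hn
  have hdiag : ∀ i j, i ≠ j → (uᵀ * S * u) i j = 0 := fun i j hij =>
    hur i (Finset.mem_univ i) j (Ne.symm hij)
  set D : ι → ℚ := fun i => (uᵀ * S * u) i i with hD
  have hDn : ∀ i, |D i - b i| ≤ ε0 ∧ (D i - b i) / a0 ∈ Zp 2 := by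
    intro i
    have := hun i i
    rw [Matrix.sub_apply, Matrix.diagonal_apply_eq] at this
    exact this
  have hpos : ∀ i, 0 < D i / b i := by
    intro i
    have h1 : |D i / b i - 1| < 1 := by
      have e : D i / b i - 1 = (D i - b i) / b i := by
        field_simp [hb i]
      rw [e, abs_div, div_lt_one (abs_pos.2 (hb i))]
      exact lt_of_le_of_lt (hDn i).1 (hε0b i)
    linarith [(abs_lt.1 h1).1]
  refine ⟨u, D, hu, ?_, ?_⟩
  · ext i j
    by_cases hij : i = j
    · subst hij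
      rw [Matrix.diagonal_apply_eq]
    · rw [Matrix.diagonal_apply_ne _ hij, hdiag i j hij]
  · intro i
    refine ⟨?_, hb i, hpos i, ?_⟩
    · intro h0
      have := hpos i
      rw [h0, zero_div] at this
      exact lt_irrefl _ this
    · rw [hmem]
      obtain ⟨z, hz⟩ := gsn_prod b i (hb i)
      have e : (D i / b i - 1) / 8 = ((D i - b i) / a0) * z := by
        rw [← hz, ha0]
        have hp : ((∏ j, (b j).num : ℤ) : ℚ) ≠ 0 := by
          exact_mod_cast Finset.prod_ne_zero_iff.2 fun i _ => Rat.num_ne_zero.2 (hb i)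
        field_simp [hb i]
      rw [e]
      exact mul_mem ((hmem _).1 (hDn i).2) (gsn_int _)

end Pool.NF
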