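import Pool.Agent.H29.NF.A

/-!
# NF, row ZERN: the equations with `a_1 = 0`
-/

set_option autoImplicit false

namespace Pool.NF

open Polynomial NumberField IsDedekindDomain Pool.HYP Pool.TOW Pool.AVS Pool.T1

private theorem cub {A : Type} [CommRing A] (f : A[X]) (hm : f.Monic) (hn : f.natDegree = 3) :
    f = X ^ 3 + C (f.coeff 2) * X ^ 2 + C (f.coeff 1) * X + C (f.coeff 0) := by
  have h3 : f.coeff 3 = 1 := by
    have := hm.coeff_natDegree
    rwa [hn] at this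
  conv_lhs => rw [f.as_sum_range_C_mul_X_pow, hn]
  simp only [Finset.sum_range_succ, Finset.sum_range_zero, h3, pow_zero, pow_one, mul_one,
    zero_add, C_1, one_mul]
  ring

private noncomputable def ta {A : Type} [CommRing A] (f : A[X]) : A[X] :=
  X ^ 3 + C (81 * f.coeff 1 - 27 * f.coeff 2 ^ 2) * X +
    C (54 * f.coeff 2 ^ 3 - 243 * (f.coeff 2 * f.coeff 1) + 729 * f.coeff 0)

private theorem cub_pq {A : Type} [CommRing A] [Nontrivial A] (p q : A) :
    (X ^ 3 + C p * X + C q : A[X]).Monic ∧ (X ^ 3 + C p * X + C q : A[X]).natDegree = 3 ∧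
      (X ^ 3 + C p * X + C q : A[X]).coeff 2 = 0 ∧ (X ^ 3 + C p * X + C q : A[X]).coeff 1 = p ∧
      (X ^ 3 + C p * X + C q : A[X]).coeff 0 = q := by
  refine ⟨?_, ?_, ?_, ?_, ?_⟩
  · monicity!
  · compute_degree!
  · simp
  · simp [coeff_X_pow, coeff_C]
  · simp

private theorem ta_deg {A : Type} [CommRing A] [Nontrivial A] (f : A[X]) :
    (ta f).Monic ∧ (ta f).natDegree = 3 ∧ (ta f).coeff 2 = 0 ∧
      (ta f).coeff 1 = 81 * f.coeff 1 - 27 * f.coeff 2 ^ 2 ∧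
      (ta f).coeff 0 = 54 * f.coeff 2 ^ 3 - 243 * (f.coeff 2 * f.coeff 1) + 729 * f.coeff 0 :=
  cub_pq _ _

/-- The transformation over the field. -/
private theorem ta_comp {K : Type} [Field K] (f : K[X]) (hm : f.Monic) (hn : f.natDegree = 3) :
    ta f = (f.scaleRoots (3 ^ 2)).comp (X - C (3 * f.coeff 2)) := by
  have h1 := cub (f.scaleRoots (3 ^ 2)) ((monic_scaleRoots_iff _).2 hm)
    (by rw [natDegree_scaleRoots, hn])
  simp only [coeff_scaleRoots, hn] at h1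
  rw [h1, ta]
  simp only [add_comp, mul_comp, pow_comp, X_comp, C_comp]
  simp only [map_mul, map_sub, map_add, map_pow, map_ofNat]
  ring

private theorem ta_map {A B : Type} [CommRing A] [CommRing B] (φ : A →+* B) (f : A[X]) :
    (ta f).map φ = ta (f.map φ) := by
  have e1 : φ (81 * f.coeff 1 - 27 * f.coeff 2 ^ 2) =
      81 * φ (f.coeff 1) - 27 * φ (f.coeff 2) ^ 2 := by
    rw [map_sub, map_mul, map_mul, map_pow, map_ofNat φ 81, map_ofNat φ 27]
  have e2 : φ (54 * f.coeff 2 ^ 3 - 243 * (f.coeff 2 * f.coeff 1) + 729 * f.coeff 0) =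
      54 * φ (f.coeff 2) ^ 3 - 243 * (φ (f.coeff 2) * φ (f.coeff 1)) + 729 * φ (f.coeff 0) := by
    rw [map_add, map_sub, map_mul, map_mul, map_mul, map_mul, map_pow, map_ofNat φ 54,
      map_ofNat φ 243, map_ofNat φ 729]
  rw [ta, ta]
  simp only [Polynomial.map_add, Polynomial.map_mul, Polynomial.map_pow, map_X, map_C,
    coeff_map, e1, e2]

private theorem ta_irr {K : Type} [Field K] [CharZero K] (f : K[X]) (hm : f.Monic)
    (hn : f.natDegree = 3) (hf : Irreducible f) : Irreducible (ta f) := by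
  obtain ⟨h1, h2, -⟩ := ta_deg f
  rw [h1.irreducible_iff_roots_eq_zero_of_degree_le_three (by omega) (by omega)]
  rw [hm.irreducible_iff_roots_eq_zero_of_degree_le_three (by omega) (by omega)] at hf
  rw [Multiset.eq_zero_iff_forall_notMem]
  intro r hr
  have hr' : (ta f).eval r = 0 := (mem_roots h1.ne_zero).1 hr
  have h3 : f.eval ((r - 3 * f.coeff 2) / 9) = 0 := by
    have ev : ∀ z : K, f.eval z = z ^ 3 + f.coeff 2 * z ^ 2 + f.coeff 1 * z + f.coeff 0 := by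
      intro z
      conv_lhs => rw [cub f hm hn]
      simp only [eval_add, eval_mul, eval_pow, eval_X, eval_C]
    have e2 : f.eval ((r - 3 * f.coeff 2) / 9) = (ta f).eval r / 729 := by
      rw [ev, ta]
      simp only [eval_add, eval_mul, eval_pow, eval_X, eval_C]
      field_simp
      ring
    rw [e2, hr', zero_div]
  have : ((r - 3 * f.coeff 2) / 9) ∈ f.roots := (mem_roots hm.ne_zero).2 h3
  rw [hf] at this
  simp at this

section Bx

variable {K : Type} [Field K]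

private theorem bx_add {ρ ρ' : ℝ} {a b : 𝓞 K} (ha : a ∈ Bx K ρ) (hb : b ∈ Bx K ρ') :
    a + b ∈ Bx K (ρ + ρ') := by
  intro σ
  have := norm_add_le (σ (a : K)) (σ (b : K))
  have e : ((a + b : 𝓞 K) : K) = (a : K) + (b : K) := rfl
  rw [e, map_add]
  linarith [ha σ, hb σ]

private theorem bx_mul {ρ ρ' : ℝ} {a b : 𝓞 K} (h0 : 0 ≤ ρ) (ha : a ∈ Bx K ρ)
    (hb : b ∈ Bx K ρ') : a * b ∈ Bx K (ρ * ρ') := by
  intro σ
  have e : ((a * b : 𝓞 K) : K) = (a : K) * (b : K) := rfl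
  rw [e, map_mul, norm_mul]
  exact mul_le_mul (ha σ) (hb σ) (norm_nonneg _) h0

private theorem bx_neg {ρ : ℝ} {a : 𝓞 K} (ha : a ∈ Bx K ρ) : -a ∈ Bx K ρ := by
  intro σ
  have e : ((-a : 𝓞 K) : K) = -(a : K) := rfl
  rw [e, map_neg, norm_neg]
  exact ha σ

private theorem bx_nat (m : ℕ) : ((m : ℕ) : 𝓞 K) ∈ Bx K (m : ℝ) := by
  intro σ
  have e : ((((m : ℕ) : 𝓞 K)) : K) = (m : K) := by simp
  rw [e, map_natCast]
  simp

private theorem bx_mono {ρ ρ' : ℝ} {a : 𝓞 K} (h : ρ ≤ ρ') (ha : a ∈ Bx K ρ) : a ∈ Bx K ρ' :=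
  fun σ => (ha σ).trans h

end Bx

section Main

variable {K : Type} [Field K] [NumberField K]

omit [NumberField K] in
private theorem ta_all {Y : ℝ} (hY : 0 ≤ Y) {f : (𝓞 K)[X]} (hf : f ∈ AllN K Y) :
    ta f ∈ AllN K (11 * Y) ∧ (ta f).coeff 2 = 0 := by
  obtain ⟨hm, hn, hc⟩ := hf
  obtain ⟨h1, h2, h3, h4, h5⟩ := ta_deg f
  have ha : f.coeff 2 ∈ Bx K Y := by simpa using hc 1 (by norm_num)
  have hb : f.coeff 1 ∈ Bx K (Y ^ 2) := by simpa using hc 2 (by norm_num)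
  have hd : f.coeff 0 ∈ Bx K (Y ^ 3) := by simpa using hc 3 (by norm_num)
  have ha2 : f.coeff 2 ^ 2 ∈ Bx K (Y ^ 2) := by
    rw [pow_two, pow_two]; exact bx_mul hY ha ha
  have ha3 : f.coeff 2 ^ 3 ∈ Bx K (Y ^ 3) := by
    have e1 : f.coeff 2 ^ 3 = f.coeff 2 * f.coeff 2 ^ 2 := by ring
    have e2 : Y ^ 3 = Y * Y ^ 2 := by ring
    rw [e1, e2]; exact bx_mul hY ha ha2
  have hab : f.coeff 2 * f.coeff 1 ∈ Bx K (Y ^ 3) := by
    have e2 : Y ^ 3 = Y * Y ^ 2 := by ring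
    rw [e2]; exact bx_mul hY ha hb
  have key : ∀ (m : ℕ) {ρ : ℝ} {a : 𝓞 K}, a ∈ Bx K ρ → (m : 𝓞 K) * a ∈ Bx K (m * ρ) :=
    fun m ρ a h => bx_mul (Nat.cast_nonneg m) (bx_nat m) h
  refine ⟨⟨h1, h2, ?_⟩, h3⟩
  intro i hi
  interval_cases i
  · -- leading coefficient
    have h6 : (ta f).coeff (3 - 0) = 1 := by
      have := h1.coeff_natDegree
      rw [h2] at this
      simpa using this
    rw [h6, pow_zero]
    intro σ
    simp
  · have h6 : (ta f).coeff (3 - 1) = 0 := h3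
    rw [h6]
    intro σ
    simp only [pow_one]
    have : ((0 : 𝓞 K) : K) = 0 := rfl
    rw [this, map_zero, norm_zero]
    positivity
  · have h6 : (ta f).coeff (3 - 2) = 81 * f.coeff 1 - 27 * f.coeff 2 ^ 2 := h4
    rw [h6, sub_eq_add_neg]
    have q1 := key 81 hb
    have q2 := bx_neg (key 27 ha2)
    push_cast at q1 q2
    refine bx_mono ?_ (bx_add q1 q2)
    nlinarith [sq_nonneg Y]
  · have h6 : (ta f).coeff (3 - 3) =
        54 * f.coeff 2 ^ 3 - 243 * (f.coeff 2 * f.coeff 1) + 729 * f.coeff 0 := h5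
    rw [h6, sub_eq_add_neg]
    have q1 := key 54 ha3
    have q2 := bx_neg (key 243 hab)
    have q3 := key 729 hd
    push_cast at q1 q2 q3
    refine bx_mono ?_ (bx_add (bx_add q1 q2) q3)
    have : 0 ≤ Y ^ 3 := by positivity
    nlinarith

private theorem ta_inj {f g : (𝓞 K)[X]} (hf : f.Monic) (hfn : f.natDegree = 3) (hg : g.Monic)
    (hgn : g.natDegree = 3) (h2 : f.coeff 2 = g.coeff 2) (h : ta f = ta g) : f = g := by
  obtain ⟨-, -, -, h4, h5⟩ := ta_deg f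
  obtain ⟨-, -, -, h4', h5'⟩ := ta_deg g
  rw [h, h4'] at h4
  rw [h, h5'] at h5
  have e1 : f.coeff 1 = g.coeff 1 := by
    have h81 : (81 : 𝓞 K) ≠ 0 := by norm_num
    apply mul_left_cancel₀ h81
    rw [h2] at h4
    linear_combination -h4
  have e0 : f.coeff 0 = g.coeff 0 := by
    have h729 : (729 : 𝓞 K) ≠ 0 := by norm_num
    apply mul_left_cancel₀ h729
    rw [h2, e1] at h5
    linear_combination -h5
  rw [cub f hf hfn, cub g hg hgn, h2, e1, e0]

theorem zern (hA : ALLNStmt) (hS : SQSNStmt) (hT : TRAKStmt) : ZERNStmt := by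
  intro K _ _ hpos
  obtain ⟨δ, hδ, Y₀, H⟩ := hpos
  obtain ⟨c, C, hc, hC, hAll⟩ := hA K
  set n := dg K with hn
  have h11 : (0 : ℝ) < 11 ^ (5 * n) := by positivity
  refine ⟨δ * c / (C ^ 2 * 11 ^ (5 * n)), by positivity, max (11 * Y₀) 11, ?_⟩
  intro Y' hY'
  set Y : ℝ := Y' / 11 with hYdef
  have hYY : Y' = 11 * Y := by rw [hYdef]; ring
  have hY0 : Y₀ ≤ Y := by
    have := (le_max_left _ _).trans hY'
    rw [hYY] at this
    linarith
  have hY1 : 1 ≤ Y := by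
    have := (le_max_right _ _).trans hY'
    rw [hYY] at this
    linarith
  have hY1' : 1 ≤ Y' := by rw [hYY]; linarith
  obtain ⟨hfin, hposA, hden⟩ := H Y hY0
  obtain ⟨-, hlow, -, -, -, hBf, hBx⟩ := hAll Y hY1
  obtain ⟨hfin', -, -, hp0, hup0, -, -⟩ := hAll Y' hY1'
  refine ⟨hp0, ?_⟩
  set G := {f ∈ AllN K Y | SelK (fk K f) ∧ Irreducible (fk K f)} with hG
  set Z := {f ∈ AllN K Y' | f.coeff 2 = 0 ∧ SelK (fk K f) ∧ Irreducible (fk K f)} with hZ
  have hZf : Z.Finite := hfin'.subset fun f hf => hf.1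
  -- the injection
  have hcard : G.ncard ≤ Z.ncard * (Bx K Y).ncard := by
    rw [← Set.ncard_prod]
    refine Set.ncard_le_ncard_of_injOn (fun f => (ta f, f.coeff 2)) ?_ ?_ (hZf.prod hBf)
    · rintro f ⟨hf, hsel, hirr⟩
      obtain ⟨h1, h2⟩ := ta_all (by linarith) hf
      obtain ⟨hm, hdeg, hcf⟩ := hf
      have hmK : (fk K f).Monic := hm.map _
      have hnK : (fk K f).natDegree = 3 := by
        rw [fk, hm.natDegree_map, hdeg]
      have hmap : fk K (ta f) = ta (fk K f) := ta_map _ _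
      refine ⟨⟨by rw [hYY]; exact h1, h2, ?_, ?_⟩, ?_⟩
      · rw [hmap, ta_comp _ hmK hnK]
        rw [hT K _ _ ((monic_scaleRoots_iff _).2 hmK)]
        exact (hS K (fk K f) 3 hmK (by norm_num)).2 hsel
      · rw [hmap]
        exact ta_irr _ hmK hnK hirr
      · simpa using hcf 1 (by norm_num)
    · rintro f ⟨hf, -⟩ g ⟨hg, -⟩ he
      have he1 := (Prod.mk.injEq _ _ _ _).mp he
      exact ta_inj hf.1 hf.2.1 hg.1 hg.2.1 he1.2 he1.1
  have hcard' : (G.ncard : ℝ) ≤ Z.ncard * (Bx K Y).ncard := by exact_mod_cast hcard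
  have hYn : (0 : ℝ) < Y ^ n := by positivity
  have hZlow : δ * c * Y ^ (5 * n) ≤ Z.ncard * C := by
    have h1 : δ * (c * Y ^ (6 * n)) ≤ Z.ncard * (C * Y ^ n) :=
      calc δ * (c * Y ^ (6 * n)) ≤ δ * (AllN K Y).ncard := mul_le_mul_of_nonneg_left hlow hδ.le
        _ ≤ G.ncard := hden
        _ ≤ Z.ncard * (Bx K Y).ncard := hcard'
        _ ≤ Z.ncard * (C * Y ^ n) := mul_le_mul_of_nonneg_left hBx (Nat.cast_nonneg _)
    have e1 : Y ^ (6 * n) = Y ^ (5 * n) * Y ^ n := by rw [← pow_add]; congr 1; ring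
    rw [e1] at h1
    have h2 : δ * c * Y ^ (5 * n) * Y ^ n ≤ Z.ncard * C * Y ^ n := by
      calc δ * c * Y ^ (5 * n) * Y ^ n = δ * (c * (Y ^ (5 * n) * Y ^ n)) := by ring
        _ ≤ Z.ncard * (C * Y ^ n) := h1
        _ = Z.ncard * C * Y ^ n := by ring
    exact le_of_mul_le_mul_right h2 hYn
  calc δ * c / (C ^ 2 * 11 ^ (5 * n)) * ({f ∈ AllN K Y' | f.coeff 2 = 0}.ncard : ℝ)
      ≤ δ * c / (C ^ 2 * 11 ^ (5 * n)) * (C * Y' ^ (5 * n)) :=
        mul_le_mul_of_nonneg_left hup0 (by positivity)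
    _ = δ * c * Y ^ (5 * n) / C := by
        rw [hYY, mul_pow]
        field_simp
    _ ≤ Z.ncard := by
        rw [div_le_iff₀ hC]
        exact hZlow

end Main

end Pool.NF
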